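import Pool.Agent.N689.ZL.Gen

/-!
# The Tits alternative for random Artin groups: a zero-one law

A Coxeter matrix of rank `n` is given by the list `x` of its `n (n - 1) / 2` labels above the
diagonal (`0` stands for infinity); in the random Artin group of rank `n` the labels are
independent, with an arbitrary distribution `p`.

Theorem. Either all Artin groups all of whose labels have positive probability satisfy the Tits
alternative, or the random Artin group of rank `n` satisfies it with probability at most
`exp (- c n ^ 2)` for large `n`.
-/

set_option autoImplicit false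

namespace Pool.Agent.Results.MP_e6f638_al.RandomArtinGroups

open Pool.Agent.N689.ZL

/-- Every finitely generated subgroup is virtually solvable or contains a nonabelian free group. -/
def TitsAlternative (G : Type) [Group G] : Prop :=
  ∀ H : Subgroup G, H.FG →
    (∃ N : Subgroup H, N.FiniteIndex ∧ Group.IsSolvable N) ∨
      ∃ f : FreeGroup (Fin 2) →* H, Function.Injective f

theorem finiteIndex_comap {A B : Type} [Group A] [Group B] (f : A →* B) {H : Subgroup B}
    (hH : H.FiniteIndex) : (H.comap f).FiniteIndex := by
  have h := Subgroup.relIndex_comap_ne_zero f (J := H) (K := ⊤)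
    (by rw [Subgroup.relIndex_top_right]; exact hH.index_ne_zero)
  rw [Subgroup.comap_top, Subgroup.relIndex_top_right] at h
  exact ⟨h⟩

theorem of_injective (G G' : Type) [Group G] [Group G'] (f : G →* G')
    (hf : Function.Injective f) (h : TitsAlternative G') : TitsAlternative G := by
  intro H hH
  classical
  have hfg : (H.map f).FG := by
    obtain ⟨S, hS⟩ := hH
    exact ⟨S.image f, by rw [Finset.coe_image, ← MonoidHom.map_closure, hS]⟩
  let e : H ≃* H.map f := H.equivMapOfInjective f hf
  rcases h (H.map f) hfg with ⟨N, hN, hs⟩ | ⟨g, hg⟩
  · left
    refine ⟨N.comap e.toMonoidHom, finiteIndex_comap _ hN, ?_⟩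
    have h1 : Function.Injective (e.toMonoidHom.subgroupComap N) := by
      intro a b hab
      have h2 : e a = e b := congrArg Subtype.val hab
      exact Subtype.ext (e.injective h2)
    haveI := hs
    exact Group.isSolvable_of_isSolvable_injective h1
  · right
    exact ⟨e.symm.toMonoidHom.comp g, e.symm.injective.comp hg⟩

/-- For every distribution `p` of the labels: (1) all Artin groups whose labels have positive
probability satisfy the Tits alternative, or (2) for some `c > 0` and all large `n` the random Artin
group of rank `n` satisfies it with probability at most `exp (- c n ^ 2)`. -/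
theorem result (p : PMF ℕ) :
    (∀ n x, x.length = n.choose 2 → (∀ t ∈ x, p t ≠ 0) → TitsAlternative (ArtinGroup n x)) ∨
    ∃ c : ℝ, 0 < c ∧ ∃ n₀ : ℕ, ∀ n ≥ n₀,
      prob p n {x | TitsAlternative (ArtinGroup n x)} ≤ Real.exp (-(c * (n : ℝ) ^ 2)) :=
  zeroOne TitsAlternative (fun G H _ _ f hf h => of_injective G H f hf h) p

end Pool.Agent.Results.MP_e6f638_al.RandomArtinGroups
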